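import Pool.Agent.Helper21.DN.Stmts

set_option autoImplicit false

namespace Pool.Agent.Helper21.DN

universe u

theorem asc_nsmul_top (e : ℕ) (he : 0 < e) : e • (⊤ : WithTop ℤ) = ⊤ := by
  obtain ⟨f, rfl⟩ : ∃ f, e = f + 1 := ⟨e - 1, by omega⟩
  rw [succ_nsmul, add_top]

theorem asc_nsmul_coe (e : ℕ) (a : ℤ) :
    e • (a : WithTop ℤ) = (((e : ℤ) * a : ℤ) : WithTop ℤ) := by
  induction e with
  | zero => simp
  | succ f ih =>
    rw [succ_nsmul, ih, ← WithTop.coe_add]
    congr 1
    push_cast
    ring

theorem asc_cancel (e : ℕ) (he : 0 < e) (a b : WithTop ℤ) (h : e • a = e • b) : a = b := by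
  induction a using WithTop.recTopCoe with
  | top =>
    induction b using WithTop.recTopCoe with
    | top => rfl
    | coe b =>
      rw [asc_nsmul_top e he, asc_nsmul_coe] at h
      exact absurd h (WithTop.top_ne_coe)
  | coe a =>
    induction b using WithTop.recTopCoe with
    | top =>
      rw [asc_nsmul_top e he, asc_nsmul_coe] at h
      exact absurd h (WithTop.coe_ne_top)
    | coe b =>
      rw [asc_nsmul_coe, asc_nsmul_coe] at h
      have h2 := WithTop.coe_injective h
      have he' : (e : ℤ) ≠ 0 := by exact_mod_cast he.ne'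
      exact congrArg _ (mul_left_cancel₀ he' h2)

/-- the valuation of an Artin-Schreier root -/
theorem asc_val {L : Type u} [Field L] (p : ℕ) (hp : 2 ≤ p) (v : AddValuation L (WithTop ℤ))
    (y x : L) (N : ℤ) (hN : 0 < N) (hy : y ^ p - y = x) (hx : v x = ((-N : ℤ) : WithTop ℤ)) :
    ∃ a : ℤ, v y = (a : WithTop ℤ) ∧ (p : ℤ) * a = -N := by
  have hne : v y ≠ ⊤ := by
    intro h
    have h0 : y = 0 := (AddValuation.top_iff v).1 h
    rw [h0, zero_pow (by omega), sub_zero] at hy
    rw [← hy, AddValuation.map_zero] at hx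
    exact WithTop.top_ne_coe hx
  obtain ⟨a, ha⟩ := WithTop.ne_top_iff_exists.1 hne
  refine ⟨a, ha.symm, ?_⟩
  have hpow : v (y ^ p) = (((p : ℤ) * a : ℤ) : WithTop ℤ) := by
    rw [AddValuation.map_pow, ← ha, asc_nsmul_coe]
  have haneg : a < 0 := by
    by_contra hcon
    push Not at hcon
    have h1 : (0 : WithTop ℤ) ≤ v (y ^ p - y) := by
      apply AddValuation.map_le_sub
      · rw [hpow]
        exact_mod_cast mul_nonneg (by positivity) hcon
      · rw [← ha]
        exact_mod_cast hcon
    rw [hy, hx] at h1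
    have h2 : (0 : ℤ) ≤ -N := by exact_mod_cast h1
    omega
  have hlt : v (y ^ p) < v y := by
    rw [hpow, ← ha]
    have : (p : ℤ) * a < a := by
      have hp' : (2 : ℤ) ≤ p := by exact_mod_cast hp
      nlinarith
    exact_mod_cast this
  have h3 := AddValuation.map_sub_eq_of_lt_left (v := v) hlt
  rw [hy, hx, hpow] at h3
  have h4 := WithTop.coe_injective h3
  exact h4.symm

/-- the solutions of `c ^ p = c` -/
theorem asc_fp {L : Type u} [Field L] (p : ℕ) [Fact p.Prime] [CharP L p] (c : L)
    (hc : c ^ p = c) : ∃ n : ℤ, (n : L) = c :=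
  (_root_.mem_bot_iff_intCast p L).1 ((Subfield.mem_bot_iff_pow_eq_self L p).2 hc)

theorem asc_diff {K L : Type u} [Field K] [Field L] [Algebra K L] (p : ℕ) [Fact p.Prime]
    [CharP L p] (y : L) (x : K) (hy : y ^ p - y = algebraMap K L x) (σ : L ≃ₐ[K] L) :
    ∃ n : ℤ, (n : L) = σ y - y := by
  apply asc_fp p
  rw [sub_pow_char, ← map_pow]
  have h1 : y ^ p = y + algebraMap K L x := by rw [← hy]; ring
  rw [h1, map_add, AlgEquiv.commutes]
  ring

theorem asc_normal {K L : Type u} [Field K] [Field L] [Algebra K L] [FiniteDimensional K L]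
    [IsGalois K L] (p : ℕ) [Fact p.Prime]
    [CharP L p] (y : L) (x : K) (hy : y ^ p - y = algebraMap K L x) :
    Normal K (IntermediateField.adjoin K {y}) := by
  rw [IntermediateField.normal_iff_forall_map_le']
  intro σ
  rw [IntermediateField.adjoin_map, IntermediateField.adjoin_le_iff]
  rintro z ⟨w, hw, rfl⟩
  have hw' : w = y := hw
  subst hw'
  obtain ⟨n, hn⟩ := asc_diff p w x hy σ
  have h2 : σ w = (n : L) + w := by rw [hn]; ring
  show σ w ∈ _
  rw [h2]
  exact add_mem (intCast_mem _ n) (IntermediateField.mem_adjoin_simple_self K w)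

theorem asc_finrank_le {K L : Type u} [Field K] [Field L] [Algebra K L] (p : ℕ) (hp : 1 < p)
    (y : L) (x : K) (hy : y ^ p - y = algebraMap K L x) :
    Module.finrank K (IntermediateField.adjoin K {y}) ≤ p := by
  have hmonic : (Polynomial.X ^ p - Polynomial.X - Polynomial.C x : Polynomial K).Monic := by
    have : (Polynomial.X ^ p - Polynomial.X - Polynomial.C x : Polynomial K) =
        Polynomial.X ^ p - (Polynomial.X + Polynomial.C x) := by ring
    rw [this]
    apply Polynomial.monic_X_pow_sub
    rw [Polynomial.degree_X_add_C]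
    exact_mod_cast hp
  have hroot : Polynomial.aeval y
      (Polynomial.X ^ p - Polynomial.X - Polynomial.C x : Polynomial K) = 0 := by
    simp [← hy]
  have hint : IsIntegral K y := ⟨_, hmonic, hroot⟩
  rw [IntermediateField.adjoin.finrank hint]
  have h1 : (minpoly K y).natDegree ≤
      (Polynomial.X ^ p - Polynomial.X - Polynomial.C x : Polynomial K).natDegree :=
    Polynomial.natDegree_le_of_dvd (minpoly.dvd K y hroot) hmonic.ne_zero
  refine h1.trans ?_
  have : (Polynomial.X ^ p - Polynomial.X - Polynomial.C x : Polynomial K) =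
      Polynomial.X ^ p - (Polynomial.X + Polynomial.C x) := by ring
  rw [this]
  refine (Polynomial.natDegree_sub_le _ _).trans ?_
  rw [Polynomial.natDegree_X_pow, Polynomial.natDegree_X_add_C]
  omega

theorem asc_cond {G : Type u} [Group G] [Fintype G] (s : G → ℕ) (p m : ℕ) (hp : 2 ≤ p)
    (hcard : Nat.card G = p) (hs : ∀ g, g ≠ 1 → s g = m) : cond s = (m : ℝ) := by
  classical
  have hc : Fintype.card G = p := by rw [← hcard, Nat.card_eq_fintype_card]
  have hS : S1 s = (p - 1) * m := by
    unfold S1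
    rw [Finset.sum_congr rfl (fun g hg => hs g (Finset.mem_filter.1 hg).2), Finset.sum_const,
      smul_eq_mul]
    congr 1
    rw [Finset.filter_ne', Finset.card_erase_of_mem (Finset.mem_univ _), Finset.card_univ, hc]
  have hx : x0 s = m := by
    unfold x0
    apply le_antisymm
    · apply Finset.sup_le
      intro g hg
      rw [hs g (Finset.mem_filter.1 hg).2]
    · have hnt : Nontrivial G := by
        rw [← Fintype.one_lt_card_iff_nontrivial, hc]
        omega
      obtain ⟨g, hg⟩ := exists_ne (1 : G)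
      rw [← hs g hg]
      exact Finset.le_sup (f := s) (Finset.mem_filter.2 ⟨Finset.mem_univ _, hg⟩)
  unfold cond
  rw [hS, hx, hc]
  have hp0 : (p : ℝ) ≠ 0 := by
    have : p ≠ 0 := by omega
    exact_mod_cast this
  rw [div_eq_iff hp0]
  have : (((p - 1 : ℕ) : ℝ)) = (p : ℝ) - 1 := by
    rw [Nat.cast_sub (by omega)]
    simp
  push_cast
  rw [this]
  ring

theorem st_ASC (hS1 : ST_S1.{u}) (hHBF : ST_HBF.{u}) : ST_ASC.{u} := by
  intro p hp k K L _ _ _ _ _ _ _ κ v hram hpg x h y m hm hpm hy hv
  have hKp : CharP K p := charP_of_injective_ringHom κ.injective p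
  have hLp : CharP L p := charP_of_injective_algebraMap (algebraMap K L).injective p
  have hp2 : 2 ≤ p := hp.out.two_le
  obtain ⟨x', hx'⟩ : ∃ x' : K, x' = x - (h ^ p - h) := ⟨_, rfl⟩
  rw [← hx'] at hv
  obtain ⟨y', hy'⟩ : ∃ y' : L, y' = y - algebraMap K L h := ⟨_, rfl⟩
  have hy1 : y' ^ p - y' = algebraMap K L x' := by
    rw [hy', hx', sub_pow_char, map_sub, map_sub, map_pow, ← hy]
    ring
  obtain ⟨E, hE⟩ : ∃ E : IntermediateField K L, E = IntermediateField.adjoin K {y'} := ⟨_, rfl⟩
  have hNE : Normal K E := by rw [hE]; exact asc_normal p y' x' hy1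
  have hGE : IsGalois K E := IsGalois.mk
  obtain ⟨vE, hTV, hvE⟩ := hram.sub E
  have hLE : 0 < Module.finrank E L := Module.finrank_pos
  have hprod : Module.finrank K E * Module.finrank E L = Module.finrank K L :=
    Module.finrank_mul_finrank K E L
  have hnpos : 0 < Module.finrank K L := Module.finrank_pos
  obtain ⟨a, ha, hpa⟩ := asc_val p hp2 v y' (algebraMap K L x') (Module.finrank K L * m)
    (by positivity) hy1 hv
  have hyE : y' ∈ E := by
    rw [hE]
    exact IntermediateField.mem_adjoin_simple_self K y'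
  obtain ⟨yE, hyEe⟩ : ∃ yE : E, (yE : L) = y' := ⟨⟨y', hyE⟩, rfl⟩
  have h1 : v y' = Module.finrank E L • vE yE := by
    rw [← hyEe]
    exact hvE yE
  obtain ⟨b, hb⟩ : ∃ b : ℤ, vE yE = b := by
    have hnt : vE yE ≠ ⊤ := by
      intro ht
      rw [ht, asc_nsmul_top _ hLE, ha] at h1
      exact WithTop.coe_ne_top h1
    obtain ⟨b, hb⟩ := WithTop.ne_top_iff_exists.1 hnt
    exact ⟨b, hb.symm⟩
  have hab : a = Module.finrank E L * b := by
    rw [hb, asc_nsmul_coe, ha] at h1
    exact WithTop.coe_injective h1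
  have hpb : (p : ℤ) * b = -(Module.finrank K E * m) := by
    have h3 : (Module.finrank E L : ℤ) * (p * b) =
        (Module.finrank E L : ℤ) * (-(Module.finrank K E * m)) := by
      have h2 : (p : ℤ) * (Module.finrank E L * b) = -(Module.finrank K L * m) := by
        rw [← hab]
        exact hpa
      rw [← hprod] at h2
      push_cast at h2
      linarith
    exact mul_left_cancel₀ (by exact_mod_cast hLE.ne') h3
  have hpdvd : p ∣ Module.finrank K E := by
    have h4 : (p : ℤ) ∣ ((Module.finrank K E * m : ℕ) : ℤ) := ⟨-b, by push_cast; linarith⟩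
    have h5 : p ∣ Module.finrank K E * m := by exact_mod_cast h4
    exact (hp.out.dvd_mul.1 h5).resolve_right hpm
  have hfin : Module.finrank K E = p := by
    apply le_antisymm
    · rw [hE]
      exact asc_finrank_le p (by omega) y' x' hy1
    · exact Nat.le_of_dvd Module.finrank_pos hpdvd
  have hbm : b = -(m : ℤ) := by
    rw [hfin] at hpb
    have hp0 : (p : ℤ) ≠ 0 := by
      have : p ≠ 0 := by omega
      exact_mod_cast this
    apply mul_left_cancel₀ hp0
    linarith
  have hcard : Nat.card (E ≃ₐ[K] E) = p := by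
    rw [IsGalois.card_aut_eq_finrank, hfin]
  have hinvE : ∀ (τ : E ≃ₐ[K] E) (z : E), vE (τ z) = vE z := by
    intro τ z
    apply asc_cancel _ hLE
    rw [← hvE, ← hvE, ← hram.inv (τ.liftNormal L) (z : L)]
    congr 1
    exact (τ.liftNormal_commutes L z).symm
  have hEp : CharP E p := charP_of_injective_algebraMap (algebraMap K E).injective p
  have hyE1 : yE ^ p - yE = algebraMap K E x' := by
    apply Subtype.ext
    have : ((yE ^ p - yE : E) : L) = (yE : L) ^ p - (yE : L) := rfl
    rw [this, hyEe, hy1]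
    rfl
  have hgen : ∀ τ : E ≃ₐ[K] E, τ yE = yE → τ = 1 := by
    intro τ hτ
    have key : ∀ z : L, ∀ hz : z ∈ E, τ ⟨z, hz⟩ = ⟨z, hz⟩ := by
      intro z hz
      have h6 : z ∈ IntermediateField.adjoin K {y'} := by rw [← hE]; exact hz
      have h7 : IntermediateField.adjoin K {y'} ≤
          IntermediateField.fixedField (Subgroup.zpowers (τ.liftNormal L)) := by
        rw [IntermediateField.adjoin_simple_le_iff, IntermediateField.mem_fixedField_iff]
        intro σ hσ
        rw [Subgroup.mem_zpowers_iff] at hσ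
        obtain ⟨i, rfl⟩ := hσ
        have h8 : (τ.liftNormal L) y' = y' := by
          have h9 := τ.liftNormal_commutes L yE
          rw [hτ] at h9
          rw [← hyEe]
          exact h9
        have h10 : τ.liftNormal L ∈ MulAction.stabilizer (L ≃ₐ[K] L) y' := h8
        exact (Subgroup.zpow_mem _ h10 i)
      have h11 := h7 h6
      rw [IntermediateField.mem_fixedField_iff] at h11
      have h12 := h11 (τ.liftNormal L) (Subgroup.mem_zpowers _)
      apply Subtype.ext
      have h13 := τ.liftNormal_commutes L ⟨z, hz⟩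
      exact h13.symm.trans h12
    ext z
    have := key z z.2
    simpa using congrArg Subtype.val this
  have hsE : ∀ τ : E ≃ₐ[K] E, τ ≠ 1 → s vE τ = m := by
    intro τ hτ
    obtain ⟨n, hn⟩ := asc_diff p yE x' hyE1 τ
    have hne : τ yE ≠ yE := fun h0 => hτ (hgen τ h0)
    have hn0 : (n : k) ≠ 0 := by
      intro h0
      apply hne
      have h14 : ((algebraMap K E).comp κ) (n : k) = (n : E) := map_intCast _ n
      rw [h0, map_zero] at h14
      rw [← h14] at hn
      exact (sub_eq_zero.1 hn.symm)
    have hval : vE (τ yE - yE) = 0 := by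
      rw [← hn]
      have h14 : ((algebraMap K E).comp κ) (n : k) = (n : E) := map_intCast _ n
      rw [← h14]
      exact hTV.alg _ hn0
    have hiter : ∀ z : E, (⇑((τ : E →ₐ[K] E) : E →+* E))^[p ^ 1] z = z := by
      intro z
      have h15 : τ ^ p = 1 := by
        rw [← hcard]
        exact pow_card_eq_one'
      have h16 : ∀ (i : ℕ) (z : E), (⇑((τ : E →ₐ[K] E) : E →+* E))^[i] z = (τ ^ i) z := by
        intro i
        induction i with
        | zero => intro z; rfl
        | succ i ih =>
          intro z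
          rw [Function.iterate_succ_apply, ih, pow_succ]
          rfl
      rw [h16, pow_one, h15]
      rfl
    have hS := hS1 p k E ((algebraMap K E).comp κ) vE hTV ((τ : E →ₐ[K] E) : E →+* E)
      (fun c => τ.commutes (κ c)) (fun z => hinvE τ z) ⟨1, hiter⟩ ⟨yE, hne⟩
    have h17 := hS.2.2 yE (-(m : ℤ)) (by rw [hb, hbm]) (by
      rw [Int.dvd_neg]
      intro h18
      exact hpm (by exact_mod_cast h18))
    have h18 : vE (τ yE - yE) = ((-(m : ℤ) + s vE τ : ℤ) : WithTop ℤ) := h17
    rw [hval] at h18
    have h19 : (0 : ℤ) = -(m : ℤ) + s vE τ := WithTop.coe_injective h18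
    omega
  have hcond : cond (fun τ : E ≃ₐ[K] E => s vE τ) = (m : ℝ) :=
    asc_cond _ p m hp2 hcard hsE
  have hfix : ∀ σ : L ≃ₐ[K] L, σ ∉ E.fixingSubgroup ↔ σ y ≠ y := by
    intro σ
    rw [not_iff_not, IntermediateField.mem_fixingSubgroup_iff]
    constructor
    · intro h20
      have h21 := h20 y' hyE
      rw [hy', map_sub, AlgEquiv.commutes] at h21
      exact sub_left_injective h21
    · intro h20
      have h21 : σ y' = y' := by rw [hy', map_sub, AlgEquiv.commutes, h20]
      intro z hz
      have h6 : z ∈ IntermediateField.adjoin K {y'} := by rw [← hE]; exact hz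
      have h7 : IntermediateField.adjoin K {y'} ≤
          IntermediateField.fixedField (Subgroup.zpowers σ) := by
        rw [IntermediateField.adjoin_simple_le_iff, IntermediateField.mem_fixedField_iff]
        intro σ' hσ
        rw [Subgroup.mem_zpowers_iff] at hσ
        obtain ⟨i, rfl⟩ := hσ
        have h10 : σ ∈ MulAction.stabilizer (L ≃ₐ[K] L) y' := h21
        exact (Subgroup.zpow_mem _ h10 i)
      have h11 := h7 h6
      rw [IntermediateField.mem_fixedField_iff] at h11
      exact h11 σ (Subgroup.mem_zpowers _)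
  have hex : ∃ σ : L ≃ₐ[K] L, σ ∉ E.fixingSubgroup := by
    by_contra hcon
    push Not at hcon
    have hnt : Nontrivial (E ≃ₐ[K] E) := by
      rw [← Finite.one_lt_card_iff_nontrivial, hcard]
      omega
    obtain ⟨τ, hτ⟩ := exists_ne (1 : E ≃ₐ[K] E)
    apply hτ
    have h22 := hcon (τ.liftNormal L)
    rw [IntermediateField.mem_fixingSubgroup_iff] at h22
    apply hgen
    apply Subtype.ext
    have h23 := τ.liftNormal_commutes L yE
    exact h23.symm.trans (h22 _ yE.2)
  obtain ⟨hA, hB⟩ := hHBF p k K L κ v hram hpg E vE hTV hvE hex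
  rw [hcond] at hB
  constructor
  · intro σ hσ
    have := hA σ ((hfix σ).2 hσ)
    rw [hcond] at this
    exact this
  · obtain ⟨σ, hσ, hσ2⟩ := hB
    exact ⟨σ, (hfix σ).1 hσ, hσ2⟩

end Pool.Agent.Helper21.DN
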