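import Pool.Agent.Helper21.DN.Stmts

set_option autoImplicit false

namespace Pool.Agent.Helper21.DN

universe u

theorem hbf_nsmul_top (e : ℕ) (he : 0 < e) : e • (⊤ : WithTop ℤ) = ⊤ := by
  obtain ⟨f, rfl⟩ : ∃ f, e = f + 1 := ⟨e - 1, by omega⟩
  rw [succ_nsmul, add_top]

theorem hbf_nsmul_coe (e : ℕ) (a : ℤ) :
    e • (a : WithTop ℤ) = (((e : ℤ) * a : ℤ) : WithTop ℤ) := by
  induction e with
  | zero => simp
  | succ f ih =>
    rw [succ_nsmul, ih, ← WithTop.coe_add]
    congr 1
    push_cast
    ring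

theorem hbf_cancel (e : ℕ) (he : 0 < e) (a b : WithTop ℤ) (h : e • a = e • b) : a = b := by
  induction a using WithTop.recTopCoe with
  | top =>
    induction b using WithTop.recTopCoe with
    | top => rfl
    | coe b =>
      rw [hbf_nsmul_top e he, hbf_nsmul_coe] at h
      exact absurd h (WithTop.top_ne_coe)
  | coe a =>
    induction b using WithTop.recTopCoe with
    | top =>
      rw [hbf_nsmul_top e he, hbf_nsmul_coe] at h
      exact absurd h (WithTop.coe_ne_top)
    | coe b =>
      rw [hbf_nsmul_coe, hbf_nsmul_coe] at h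
      have h2 := WithTop.coe_injective h
      have he' : (e : ℤ) ≠ 0 := by exact_mod_cast he.ne'
      exact congrArg _ (mul_left_cancel₀ he' h2)

/-- the standing hypotheses for a normal intermediate field -/
theorem hbf_ram {k K L : Type u} [Field k] [Field K] [Field L] [Algebra K L]
    [FiniteDimensional K L] [IsGalois K L] (κ : k →+* K) (v : AddValuation L (WithTop ℤ))
    (hram : Ram κ v) (E : IntermediateField K L) [Normal K E]
    (vE : AddValuation E (WithTop ℤ)) (hTV : TV ((algebraMap K E).comp κ) vE)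
    (hvE : ∀ x : E, v (x : L) = Module.finrank E L • vE x) : Ram κ vE := by
  have hLE : 0 < Module.finrank E L := Module.finrank_pos
  refine ⟨hTV, ?_, ?_⟩
  · intro τ z
    apply hbf_cancel _ hLE
    rw [← hvE, ← hvE, ← hram.inv (τ.liftNormal L) (z : L)]
    congr 1
    exact (τ.liftNormal_commutes L z).symm
  · intro F
    obtain ⟨vF, hF, hF2⟩ := hram.sub (IntermediateField.lift F)
    let i : F ≃ₐ[K] (IntermediateField.lift F) := IntermediateField.liftAlgEquiv F
    have hi : ∀ x : F, ((i x : IntermediateField.lift F) : L) = ((x : E) : L) := fun x => rfl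
    refine ⟨vF.comap (i : F →+* IntermediateField.lift F), ⟨?_, ?_, ?_⟩, ?_⟩
    · obtain ⟨π, hπ⟩ := hF.unif
      refine ⟨i.symm π, ?_⟩
      show vF (i (i.symm π)) = 1
      rw [AlgEquiv.apply_symm_apply]
      exact hπ
    · intro c hc
      show vF (i (algebraMap K F (κ c))) = 0
      rw [AlgEquiv.commutes]
      exact hF.alg c hc
    · intro x hx
      obtain ⟨c, hc⟩ := hF.const (i x) hx
      refine ⟨c, ?_⟩
      show 1 ≤ vF (i (x - algebraMap K F (κ c)))
      rw [map_sub, AlgEquiv.commutes]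
      exact hc
    · intro x
      show vE (x : E) = Module.finrank F E • vF (i x)
      apply hbf_cancel _ hLE
      have h1 := hvE (x : E)
      have h2 := hF2 (i x)
      rw [hi] at h2
      rw [← h1, h2, ← mul_nsmul]
      congr 1
      have h3 : Module.finrank K (IntermediateField.lift F) = Module.finrank K F :=
        (LinearEquiv.finrank_eq i.toLinearEquiv).symm
      have h4 := Module.finrank_mul_finrank K (IntermediateField.lift F) L
      have h5 := Module.finrank_mul_finrank K E L
      have h6 := Module.finrank_mul_finrank K F E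
      have h7 : 0 < Module.finrank K F := Module.finrank_pos
      rw [h3] at h4
      apply Nat.eq_of_mul_eq_mul_left h7
      rw [h4, ← h5, ← h6]
      ring

theorem st_HBF (hRFV : ST_RFV.{u}) (hP3 : ST_P3.{u}) (hHB : ST_HB.{u}) : ST_HBF.{u} := by
  intro p hp k K L _ _ _ _ _ _ _ κ v hram hpg E hNE vE hTV hvE hex
  have hGE : IsGalois K E := IsGalois.mk
  have hramE : Ram κ vE := hbf_ram κ v hram E vE hTV hvE
  have hpE : IsPGroup p (E ≃ₐ[K] E) :=
    IsPGroup.of_surjective hpg (AlgEquiv.restrictNormalHom E)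
      (AlgEquiv.restrictNormalHom_surjective L)
  have hRL := hRFV p k K L κ v hram hpg
  have hRE := hRFV p k K E κ vE hramE hpE
  have hker : (AlgEquiv.restrictNormalHom (F := K) (K₁ := L) E).ker = E.fixingSubgroup :=
    IntermediateField.restrictNormalHom_ker E
  have hmem : ∀ σ : L ≃ₐ[K] L, AlgEquiv.restrictNormalHom (F := K) (K₁ := L) E σ ≠ 1 ↔
      σ ∉ E.fixingSubgroup := by
    intro σ
    rw [← hker, MonoidHom.mem_ker]
  have hcard : Nat.card (AlgEquiv.restrictNormalHom (F := K) (K₁ := L) E).ker =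
      Module.finrank E L := by
    rw [hker]
    exact IsGalois.card_fixingSubgroup_eq_finrank E
  have hnt : Nontrivial (E ≃ₐ[K] E) := by
    obtain ⟨σ, hσ⟩ := hex
    exact ⟨⟨_, _, (hmem σ).2 hσ⟩⟩
  obtain ⟨hA, σ, hσ, hB⟩ := hHB (L ≃ₐ[K] L) (E ≃ₐ[K] E) (fun σ : L ≃ₐ[K] L => s v σ)
    (fun τ : E ≃ₐ[K] E => s vE τ) (AlgEquiv.restrictNormalHom E)
    (AlgEquiv.restrictNormalHom_surjective L) hRL hRE (by
      intro σ hσ
      rw [hcard, hker]
      exact hP3 p k K L κ v hram hpg E vE hTV hvE σ ((hmem σ).1 hσ)) hnt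
  exact ⟨fun τ hτ => hA τ ((hmem τ).2 hτ), σ, (hmem σ).1 hσ, hB⟩

end Pool.Agent.Helper21.DN
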